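import Pool.Agent.Y59.GA.Geo

set_option autoImplicit false

/-!
# Graph amplitudes of arbitrarily small modulus (MP_229e70_co)

The amplitude of the regular `n`-gon, a configuration of the cycle with `n` vertices, is computed
for every `n`. For odd `n` it is at most about `2 π² / n`. So `c_G ≥ 1` fails for all long odd
cycles and `c_G`, `G` connected, is not bounded below by any positive constant.

All definitions are those of the starting file `SmallAmplitude`.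
-/

namespace Pool.Agent.Results.MP_229e70_co.OddCyclesToZero

open SimpleGraph Pool.Agent.Results.MP_229e70_co.SmallAmplitude

/-- (1) Let `n ≥ 3` and let `x` be the regular `n`-gon in the `(x, z)`-plane, an admissible
configuration of the cycle `C_n`. For all spinor choices `ψ` and halves `Δ` (both exist) the
amplitude of `x` is `(s² + r) ^ n + (s² - r) ^ n` with `s = sin (π / n)` and
`r = √(1 - s² + s⁴)`, and if `n` is odd its modulus is at most `(2 π² / n) exp (π² / n)`.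
(2) For every `ε > 0` and all large odd `n` the modulus is less than `ε`.
(3) For every `ε > 0` there are a connected graph `G` and an admissible configuration `x` with
`|A_G(x)| < ε`. -/
theorem result :
    (∀ n : ℕ, 3 ≤ n →
      let x : Fin n → E3 := fun v =>
        !₂[Real.cos (2 * Real.pi * v / n), 0, Real.sin (2 * Real.pi * v / n)]
      let s : ℝ := Real.sin (Real.pi / n)
      let r : ℝ := √(1 - s ^ 2 + s ^ 4)
      (cycleGraph n).Connected ∧ Admissible (cycleGraph n) x ∧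
      (∃ ψ : (cycleGraph n).Dart → Fin 2 → ℂ, IsSpinorChoice (cycleGraph n) x ψ) ∧
      (∃ Δ : Finset (cycleGraph n).Dart, IsHalf (cycleGraph n) Δ) ∧
      ∀ (ψ : (cycleGraph n).Dart → Fin 2 → ℂ) (Δ : Finset (cycleGraph n).Dart),
        IsSpinorChoice (cycleGraph n) x ψ → IsHalf (cycleGraph n) Δ →
        amplitude (cycleGraph n) ψ Δ = (((s ^ 2 + r) ^ n + (s ^ 2 - r) ^ n : ℝ) : ℂ) ∧
        (Odd n → ‖amplitude (cycleGraph n) ψ Δ‖ ≤
          2 * Real.pi ^ 2 / n * Real.exp (Real.pi ^ 2 / n))) ∧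
    (∀ ε : ℝ, 0 < ε → ∃ n₀ : ℕ, ∀ n : ℕ, n₀ ≤ n → Odd n →
      ∀ (ψ : (cycleGraph n).Dart → Fin 2 → ℂ) (Δ : Finset (cycleGraph n).Dart),
        IsSpinorChoice (cycleGraph n) (fun v : Fin n =>
          (!₂[Real.cos (2 * Real.pi * v / n), 0, Real.sin (2 * Real.pi * v / n)] : E3)) ψ →
        IsHalf (cycleGraph n) Δ → ‖amplitude (cycleGraph n) ψ Δ‖ < ε) ∧
    (∀ ε : ℝ, 0 < ε → ∃ (V : Type) (_ : Fintype V) (_ : DecidableEq V) (G : SimpleGraph V)
      (_ : DecidableRel G.Adj) (x : V → E3),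
      G.Connected ∧ Admissible G x ∧
      (∃ ψ : G.Dart → Fin 2 → ℂ, IsSpinorChoice G x ψ) ∧
      (∃ Δ : Finset G.Dart, IsHalf G Δ) ∧
      ∀ (ψ : G.Dart → Fin 2 → ℂ) (Δ : Finset G.Dart), IsSpinorChoice G x ψ → IsHalf G Δ →
        ‖amplitude G ψ Δ‖ < ε) := by
  have h1 : ∀ n : ℕ, 3 ≤ n →
      let x : Fin n → E3 := fun v =>
        !₂[Real.cos (2 * Real.pi * v / n), 0, Real.sin (2 * Real.pi * v / n)]
      let s : ℝ := Real.sin (Real.pi / n)
      let r : ℝ := √(1 - s ^ 2 + s ^ 4)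
      (cycleGraph n).Connected ∧ Admissible (cycleGraph n) x ∧
      (∃ ψ : (cycleGraph n).Dart → Fin 2 → ℂ, IsSpinorChoice (cycleGraph n) x ψ) ∧
      (∃ Δ : Finset (cycleGraph n).Dart, IsHalf (cycleGraph n) Δ) ∧
      ∀ (ψ : (cycleGraph n).Dart → Fin 2 → ℂ) (Δ : Finset (cycleGraph n).Dart),
        IsSpinorChoice (cycleGraph n) x ψ → IsHalf (cycleGraph n) Δ →
        amplitude (cycleGraph n) ψ Δ = (((s ^ 2 + r) ^ n + (s ^ 2 - r) ^ n : ℝ) : ℂ) ∧
        (Odd n → ‖amplitude (cycleGraph n) ψ Δ‖ ≤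
          2 * Real.pi ^ 2 / n * Real.exp (Real.pi ^ 2 / n)) := by
    intro n hn
    obtain ⟨m, rfl⟩ := Nat.exists_eq_add_of_le' hn
    intro x s r
    refine ⟨cycleGraph_connected, Pool.Agent.Y59.GA.poly_admissible,
      Pool.Agent.Y59.GA.spinorChoice_exists, Pool.Agent.Y59.GA.half_exists, ?_⟩
    intro ψ Δ hψ hΔ
    have e1 := Pool.Agent.Y59.GA.amplitude_poly ψ hψ Δ hΔ
    rw [Pool.Agent.Y59.GA.trace_pow] at e1
    have e2 : Pool.Agent.Y59.GA.ss m = s ^ 2 := rfl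
    have e3 : Pool.Agent.Y59.GA.rr m = r := by
      show √(1 - Pool.Agent.Y59.GA.ss m + Pool.Agent.Y59.GA.ss m ^ 2) = √(1 - s ^ 2 + s ^ 4)
      rw [e2, ← pow_mul]
    refine ⟨by rw [e1, e2, e3], ?_⟩
    intro hodd
    rw [e1, Complex.norm_real, Real.norm_eq_abs]
    exact Pool.Agent.Y59.GA.value_bound m hodd
  have h2 : ∀ ε : ℝ, 0 < ε → ∃ n₀ : ℕ, ∀ n : ℕ, n₀ ≤ n → Odd n →
      ∀ (ψ : (cycleGraph n).Dart → Fin 2 → ℂ) (Δ : Finset (cycleGraph n).Dart),
        IsSpinorChoice (cycleGraph n) (fun v : Fin n =>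
          (!₂[Real.cos (2 * Real.pi * v / n), 0, Real.sin (2 * Real.pi * v / n)] : E3)) ψ →
        IsHalf (cycleGraph n) Δ → ‖amplitude (cycleGraph n) ψ Δ‖ < ε := by
    intro ε hε
    have hlim : Filter.Tendsto (fun n : ℕ => 2 * Real.pi ^ 2 / (n : ℝ) *
        Real.exp (Real.pi ^ 2 / (n : ℝ))) Filter.atTop (nhds 0) := by
      have t1 : Filter.Tendsto (fun n : ℕ => 2 * Real.pi ^ 2 / (n : ℝ)) Filter.atTop (nhds 0) :=
        tendsto_const_div_atTop_nhds_zero_nat _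
      have t2 : Filter.Tendsto (fun n : ℕ => Real.pi ^ 2 / (n : ℝ)) Filter.atTop (nhds 0) :=
        tendsto_const_div_atTop_nhds_zero_nat _
      have t3 := (Real.continuous_exp.tendsto 0).comp t2
      have t4 := t1.mul t3
      simpa using t4
    obtain ⟨n₁, hn₁⟩ := Filter.eventually_atTop.1 (hlim.eventually (gt_mem_nhds hε))
    refine ⟨max 3 n₁, ?_⟩
    intro n hn hodd ψ Δ hψ hΔ
    have h3 := h1 n (le_trans (le_max_left _ _) hn)
    obtain ⟨-, -, -, -, h4⟩ := h3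
    exact lt_of_le_of_lt ((h4 ψ Δ hψ hΔ).2 hodd) (hn₁ n (le_trans (le_max_right _ _) hn))
  refine ⟨h1, h2, ?_⟩
  intro ε hε
  obtain ⟨n₀, hn₀⟩ := h2 ε hε
  have h3 : 3 ≤ 2 * (n₀ + 1) + 1 := by omega
  obtain ⟨c1, c2, c3, c4, -⟩ := h1 (2 * (n₀ + 1) + 1) h3
  exact ⟨Fin (2 * (n₀ + 1) + 1), inferInstance, inferInstance, cycleGraph _, inferInstance, _,
    c1, c2, c3, c4, fun ψ Δ hψ hΔ => hn₀ _ (by omega) ⟨n₀ + 1, rfl⟩ ψ Δ hψ hΔ⟩

end Pool.Agent.Results.MP_229e70_co.OddCyclesToZero
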